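import Pool.Agent.H.MP_4e78b4_co.A
set_option autoImplicit false
open Finset
open scoped Pointwise
namespace Pool.Agent.Results.MP_4e78b4_co.Noisy

def star (n c m : ℕ) (A : Finset (ZMod n)) : Finset (ZMod n) :=
  m • A + (m - 1) • (range c).image fun u : ℕ => (u : ZMod n)

def chi (n k l c : ℕ) : ℤ := ((n : ℤ) + 2 * (c - 2)) / (k + l) - (c - 2)

def res (n k l c : ℕ) : ℤ := (-k * chi n k l c - (k - 1) * (c - 2)) % Int.gcd n (k - l)

def len (n k l c : ℕ) : ℤ := ((n : ℤ) + 2 * (c - 2) - res n k l c) / (k + l) - (c - 2)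

open H.MP_4e78b4_co

lemma st_eq (n c m : ℕ) (A : Finset (ZMod n)) : star n c (m + 1) A = m • (A + I 0 c) + A := by
  simp only [star, I, zero_add, Nat.add_sub_cancel, succ_nsmul, nsmul_add]
  rw [add_right_comm]

lemma ar (n k l c : ℕ) (h : l < k) (i : ℕ) :
    Good k l c n i ↔ (i : ℤ) ≤ len n (k + 1) (l + 1) (c + 2) := by
  obtain ⟨d, hd⟩ : ∃ d : ℤ, d = Int.gcd n ((k : ℤ) - l) := ⟨_, rfl⟩
  have d0 : 0 < d := by rw [hd]; exact Int.natCast_pos.2 (Int.gcd_pos_of_ne_zero_right _ (by omega))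
  have d1 : d ∣ n := hd ▸ Int.gcd_dvd_left ..
  have d2 : d ∣ (k : ℤ) - l := hd ▸ Int.gcd_dvd_right ..
  have d3 : d ≤ k - l := Int.le_of_dvd (by omega) d2
  have g : Good k l c n i ↔ ∃ t : ℤ, d ∣ t ∧ (l + 1) * i + l * c ≤ t ∧
      t ≤ n - (k + 1) * i - k * c := by
    refine ⟨fun ⟨x, j, a, b⟩ => ⟨_, (d2.mul_right x).sub (d1.mul_left j), a, b⟩, ?_⟩
    rintro ⟨_, ⟨u, rfl⟩, a, b⟩
    have e : (k - l) * (Int.gcdB n ((k : ℤ) - l) * u) - (-Int.gcdA n ((k : ℤ) - l) * u) * n =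
        d * u := by rw [hd, Int.gcd_eq_gcd_ab]; ring
    exact ⟨_, _, e ▸ a, e ▸ b⟩
  obtain ⟨x, hx⟩ : ∃ x, x = chi n (k + 1) (l + 1) (c + 2) := ⟨_, rfl⟩
  obtain ⟨r, hr⟩ : ∃ r, r = res n (k + 1) (l + 1) (c + 2) := ⟨_, rfl⟩
  have p : (0 : ℤ) < k + l + 2 := by omega
  have x1 (y : ℤ) : y ≤ x ↔ (y + c) * (k + l + 2) ≤ n + 2 * c := by
    rw [← Int.le_ediv_iff_mul_le p, hx, chi, le_sub_iff_add_le]
    push_cast
    ring_nf
  have x2 : (i : ℤ) ≤ len n (k + 1) (l + 1) (c + 2) ↔ (i + c) * (k + l + 2) ≤ n + 2 * c - r := by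
    rw [← Int.le_ediv_iff_mul_le p, len, ← hr, le_sub_iff_add_le]
    push_cast
    ring_nf
  have r1 : r = (-(k + 1) * x - k * c) % d := by
    rw [hr, res, ← hx, hd]
    push_cast
    ring_nf
  have r2 := Int.emod_nonneg (-(k + 1) * x - k * c) d0.ne'
  have r3 := Int.emod_lt_of_pos (-(k + 1) * x - k * c) d0
  have r4 : d ∣ n - (k + 1) * x - k * c - r := by
    have := d1.add (Int.dvd_self_sub_emod (x := -(k + 1) * x - k * c) (m := d))
    rwa [← r1, show n + (-(k + 1) * x - k * c - r) = n - (k + 1) * x - k * c - r by ring] at this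
  rw [← r1] at r2 r3
  have x3 := (x1 x).1 le_rfl
  rw [g, x2]
  constructor
  · rintro ⟨t, a, b, e⟩
    rcases ((x1 i).2 (by nlinarith)).eq_or_lt with q | q
    · subst q
      by_contra w
      have := Int.le_of_dvd (by nlinarith) (a.sub r4)
      omega
    · nlinarith [mul_le_mul_of_nonneg_right (show (i : ℤ) + 1 ≤ x from q) p.le]
  · intro w
    rcases ((x1 i).2 (by nlinarith)).eq_or_lt with q | q
    · subst q
      exact ⟨_, r4, by nlinarith, by omega⟩
    · have r5 := Int.emod_nonneg (n - (k + 1) * i - k * c) d0.ne'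
      have r6 := Int.emod_lt_of_pos (n - (k + 1) * i - k * c) d0
      refine ⟨_, Int.dvd_self_sub_emod (x := n - (k + 1) * i - k * c) (m := d), ?_, by omega⟩
      nlinarith [mul_le_mul_of_nonneg_right (show (i : ℤ) + 1 ≤ x from q) p.le]

theorem result (n k l c : ℕ) (hn : 1 ≤ n) (hl : 1 ≤ l) (hk : l < k) (hc : 2 ≤ c) :
    IsGreatest {m : ℤ | ∃ A : Finset (ZMod n), Disjoint (star n c k A) (star n c l A) ∧ m = A.card}
      (max 0 (len n k l c)) := by
  obtain ⟨l, rfl⟩ := Nat.exists_eq_add_of_le' hl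
  obtain ⟨k, rfl⟩ := Nat.exists_eq_add_of_le' (show 1 ≤ k by omega)
  obtain ⟨c, rfl⟩ := Nat.exists_eq_add_of_le' hc
  have : NeZero n := ⟨by omega⟩
  have h : l < k := by omega
  simp only [st_eq]
  constructor
  · rcases le_or_gt (len n (k + 1) (l + 1) (c + 2)) 0 with q | q
    · exact ⟨∅, by simp, by simp [q]⟩
    obtain ⟨a, ha⟩ : ∃ a : ℕ, len n (k + 1) (l + 1) (c + 2) = (a + 1 : ℕ) :=
      ⟨(len n (k + 1) (l + 1) (c + 2) - 1).toNat, by omega⟩
    obtain ⟨x, j, a1, a2⟩ := (ar n k l c h (a + 1)).2 ha.ge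
    push_cast at a1 a2
    refine ⟨I x (a + 1), ?_, ?_⟩
    · rw [I_sum, I_sum, disjoint_left]
      intro z h1 h2
      obtain ⟨u, hu, rfl⟩ := mI.1 h1
      obtain ⟨v, hv, e⟩ := mI.1 h2
      have dv : (n : ℤ) ∣ (k - l) * x - j * n + u - v := by
        rw [← ZMod.intCast_zmod_eq_zero_iff_dvd]
        push_cast
        rw [ZMod.natCast_self]
        linear_combination -e
      zify at hu hv
      have := Int.le_of_dvd (by nlinarith) dv
      nlinarith
    · rw [max_eq_right q.le, ha, I, card_image_of_injOn, card_range]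
      intro u hu v hv e
      have : (a : ℤ) + 1 ≤ n := by
        nlinarith [show (0 : ℤ) ≤ k * a + l * a + l * c + k * c + k + l + a by positivity]
      have hu := mem_range.1 hu
      have hv := mem_range.1 hv
      exact Nat.ModEq.eq_of_lt_of_lt ((ZMod.natCast_eq_natCast_iff _ _ _).1 (add_left_cancel e))
        (by omega) (by omega)
  · rintro _ ⟨A, hA, rfl⟩
    rcases A.eq_empty_or_nonempty with rfl | q
    · simp
    · exact le_max_of_le_right ((ar n k l c h _).1 (ub k l c h n A q hA))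

end Pool.Agent.Results.MP_4e78b4_co.Noisy
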